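import Pool.Agent.E8helper92.LOTSFinal

set_option autoImplicit false

/-!
# MP_6f3246_lc: a basis for `𝒞` gives a basis for the uncountable linear orders with two more elements
-/

namespace Pool.Agent.Results.MP_6f3246_lc.BasisTransferH92

open Pool.Agent.E8helper92.LOTS.Final
open Pool.Agent.E8helper92.LOTS (six_le six_of_five five_of_six unc_of_C)

/-- In ZFC: every basis for the class `𝒞` of the `ℵ₁`-dense linear orders with countable character becomes a basis
for the uncountable linear orders (under order embeddings) when two more orders are added. In particular, if `𝒞`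
has a finite basis or a countable basis, then so have the uncountable linear orders. -/
theorem result (ι : Type) (B : ι → LinOrd.{0}) (hB : IsBasisForClass B) :
    ∃ T : ι ⊕ Bool → LinOrd.{0}, (∀ i, T (Sum.inl i) = B i) ∧ IsBasisUncountable T := by
  obtain ⟨T, h1, h2⟩ := unc_of_C B ((isBasisForClass_iff B).1 hB)
  exact ⟨T, h1, (isBasisUncountable_iff T).2 h2⟩

end Pool.Agent.Results.MP_6f3246_lc.BasisTransferH92
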