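import Pool.Agent.E8helper92.LOTSFinal

set_option autoImplicit false

/-!
# MP_6f3246_lc: six element bases for `𝒞` and five element bases for the uncountable linear orders

By a theorem of Moore, listed as known in the problem file, the right hand side of the equivalence holds under the
proper forcing axiom. So under this axiom the class `𝒞` has a basis with exactly six elements, and no smaller one.

The six element basis which is constructed from a five element basis `T` of the uncountable linear orders consists
of the five lexicographic powers with finite supports of the `T i` and of a set of reals.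
-/

namespace Pool.Agent.Results.MP_6f3246_lc.SixElementBasisH92

open Pool.Agent.E8helper92.LOTS.Final
open Pool.Agent.E8helper92.LOTS (six_le six_of_five five_of_six unc_of_C)

/-- In ZFC: (1) the class `𝒞` of the `ℵ₁`-dense linear orders with countable character has a six element basis if
and only if the uncountable linear orders have a five element basis; (2) every basis for `𝒞` has at least six
elements. -/
theorem result :
    ((∃ B : Fin 6 → LinOrd.{0}, IsBasisForClass B) ↔ ∃ T : Fin 5 → LinOrd.{0}, IsBasisUncountable T) ∧
    ∀ (ι : Type) (B : ι → LinOrd.{0}), IsBasisForClass B → ∃ f : Fin 6 → ι, Function.Injective f := by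
  refine ⟨⟨?_, ?_⟩, fun ι B hB => six_le B ((isBasisForClass_iff B).1 hB)⟩
  · rintro ⟨B, hB⟩
    obtain ⟨T, hT⟩ := five_of_six B ((isBasisForClass_iff B).1 hB)
    exact ⟨T, (isBasisUncountable_iff T).2 hT⟩
  · rintro ⟨T, hT⟩
    obtain ⟨B, hB⟩ := six_of_five T ((isBasisUncountable_iff T).1 hT)
    exact ⟨B, (isBasisForClass_iff B).2 hB⟩

end Pool.Agent.Results.MP_6f3246_lc.SixElementBasisH92
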